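import Pool.Agent.H773.IE.SR

/-! Arbitrarily small levels: `S_lev` (subtask 6226, for helper773). -/

set_option autoImplicit false

open MeasureTheory Set Filter Topology
open scoped ENNReal

namespace Pool.Agent.H553.IE

open Pool.Agent.H773.IE

variable {m : ℕ}

theorem irr_run (hirr : S_irr) (hm : 1 ≤ m) (p : List Bool) (s : Sta m) (h : IrrS s) :
    IrrS (run p s) := by
  induction p generalizing s with
  | nil => exact h
  | cons b p ih => exact ih _ (hirr m hm s h b)

/-- outcomes are determined by the lengths -/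
theorem cyl_prefix (p p' : List Bool) (s : Sta m) (lam : Fin (m + 1) → ℝ) (h : Cyl p s lam)
    (h' : Cyl p' s lam) (hl : p.length ≤ p'.length) : p <+: p' := by
  induction p generalizing p' s lam with
  | nil => exact List.nil_prefix
  | cons b p ih =>
    cases p' with
    | nil => simp at hl
    | cons b' p' =>
      have hb : b = b' := by
        have h1 := h.1
        have h2 := h'.1
        cases b <;> cases b' <;> simp only [los, win, if_true, Bool.false_eq_true, if_false] at h1 h2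
        · rfl
        · exact absurd h1 (not_lt.2 h2.le)
        · exact absurd h1 (not_lt.2 h2.le)
        · rfl
      subst hb
      rw [List.cons_prefix_cons]
      exact ⟨rfl, ih p' _ _ h.2 h'.2 (by simpa using hl)⟩

theorem geo_run (hirr : S_irr) (hgT : S_geoT) (hgF : S_geoF) (hm : 1 ≤ m) {T : ℝ → ℝ}
    {P : Fin (m + 1) → Set ℝ} {τ : Fin (m + 1) → ℝ} (hT : ∀ j, ∀ x ∈ P j, T x = x + τ j)
    (p : List Bool) (s : Sta m) (lam : Fin (m + 1) → ℝ) (w : Fin (m + 1) → List (Fin (m + 1)))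
    (hs : IrrS s) (hg : Geo T P τ s lam w) (hc : Cyl p s lam) :
    Geo T P τ (run p s) (runL p s lam) (runW p s w) := by
  induction p generalizing s lam w with
  | nil => exact hg
  | cons b p ih =>
    refine ih _ _ _ (hirr m hm s hs b) ?_ hc.2
    have h1 := hc.1
    cases b
    · simp only [los, win, Bool.false_eq_true, if_false] at h1
      exact hgF m T P τ hT s lam w (et_ne_eb hm hs) hg h1
    · simp only [los, win, if_true] at h1
      exact hgT m T P τ hT s lam w (et_ne_eb hm hs) hg h1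

/-- a positive block makes the sum of the new lengths smaller than each old length -/
theorem sum_le (halg : S_alg) (hm : 1 ≤ m) (s : Sta m) (hs : IrrS s) (g : List Bool)
    (hg : ∀ q : Fin (m + 1) → ℝ, (∀ i, 0 ≤ q i) → ∀ i, ∑ j, q j ≤ runQ g s q i)
    (lam : Fin (m + 1) → ℝ) (hpos : ∀ i, 0 < lam i) (hc : Cyl g s lam) (j : Fin (m + 1)) :
    ∑ i, runL g s lam i ≤ lam j := by
  have h1 := (halg m hm s hs g).1 (Pi.single j 1) lam
  have h2 := ((halg m hm s hs g).2.1 lam hpos hc).1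
  have h3 : ∑ i, (Pi.single j (1 : ℝ) : Fin (m + 1) → ℝ) i * lam i = lam j := by
    simp [Pi.single_apply]
  rw [h3] at h1
  rw [← h1]
  refine Finset.sum_le_sum fun i _ => ?_
  have h4 := hg (Pi.single j 1) (fun i => by
    rw [Pi.single_apply]
    split_ifs <;> norm_num) i
  rw [Finset.sum_pi_single', if_pos (Finset.mem_univ _)] at h4
  nlinarith [h2 i]

theorem t_lev (hirr : S_irr) (hsys : S_sys) (hgeo0 : S_geo0) (hgT : S_geoT) (hgF : S_geoF)
    (halg : S_alg) (hlg : S_levgeo) : S_lev := by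
  intro m hm σ γ hirr0 hγ R hR lam hlam hsum hrec
  set N : ℕ := Finset.univ.sup fun s : Sta m => (γ s).length with hN
  have hNle : ∀ s, (γ s).length ≤ N := fun s =>
    Finset.le_sup (f := fun s : Sta m => (γ s).length) (Finset.mem_univ s)
  set s0 : Sta m := (1, σ) with hs0
  have hS := hsys (m + 1) lam σ hlam hsum
  have hG0 := hgeo0 m lam σ hlam hsum
  have h2N : (0 : ℝ) < 2 ^ N := by positivity
  have hR0 : 0 < R := by linarith
  -- the sums of lengths decrease geometrically along good times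
  have hsmall : ∀ k : ℕ, ∃ p : List Bool,
      Cyl (p ++ (γ (run p s0) ++ γ (run (γ (run p s0)) (run p s0)))) s0 lam ∧
      Bal R (runQ p s0 (fun _ => 1)) ∧
      ∑ i, runL (γ (run p s0)) (run p s0) (runL p s0 lam) i ≤ (1 / 2 : ℝ) ^ k := by
    intro k
    induction k with
    | zero =>
      obtain ⟨p, _, hc, hb⟩ := hrec 0
      refine ⟨p, hc, hb, ?_⟩
      have hc1 := (Cyl_append _ _ _ _).1 hc
      have hc2 := (Cyl_append _ _ _ _).1 hc1.2
      have a1 := (halg m hm s0 hirr0 p).2.1 lam hlam hc1.1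
      have a2 := (halg m hm (run p s0) (irr_run hirr hm p s0 hirr0) (γ (run p s0))).2.1 _ a1.1
        hc2.1
      rw [pow_zero, ← hsum]
      exact a2.2.1.trans a1.2.1
    | succ k ih =>
      obtain ⟨p, hc, hb, hk⟩ := ih
      obtain ⟨p', hlen, hc', hb'⟩ := hrec (p ++ γ (run p s0)).length
      refine ⟨p', hc', hb', ?_⟩
      have hc1 := (Cyl_append _ _ _ _).1 hc
      have hc2 := (Cyl_append _ _ _ _).1 hc1.2
      have hcp : Cyl (p ++ γ (run p s0)) s0 lam := (Cyl_append _ _ _ _).2 ⟨hc1.1, hc2.1⟩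
      have hc1' := (Cyl_append _ _ _ _).1 hc'
      have hc2' := (Cyl_append _ _ _ _).1 hc1'.2
      obtain ⟨r, rfl⟩ := cyl_prefix _ _ _ _ hcp hc1'.1 hlen
      have hirr1 := irr_run hirr hm p s0 hirr0
      have hirr2 := irr_run hirr hm (γ (run p s0)) (run p s0) hirr1
      have hcr := (Cyl_append _ _ _ _).1 hc1'.1
      rw [run_append, runL_append] at hcr
      have a1 := (halg m hm s0 hirr0 p).2.1 lam hlam hc1.1
      have a2 := (halg m hm (run p s0) hirr1 (γ (run p s0))).2.1 _ a1.1 hc2.1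
      have a3 := (halg m hm _ hirr2 r).2.1 _ a2.1 hcr.2
      -- the new lengths
      set s1' := run (p ++ γ (run p s0) ++ r) s0 with hs1'
      set lam1' := runL (p ++ γ (run p s0) ++ r) s0 lam with hlam1'
      have e1 : lam1' = runL r (run (γ (run p s0)) (run p s0))
          (runL (γ (run p s0)) (run p s0) (runL p s0 lam)) := by
        rw [hlam1', runL_append, run_append, runL_append]
      have hirr1' : IrrS s1' := irr_run hirr hm _ s0 hirr0
      have b1 : ∀ i, 0 < lam1' i := by rw [e1]; exact a3.1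
      have b2 : ∑ i, lam1' i ≤ (1 / 2 : ℝ) ^ k := by
        rw [e1]; exact a3.2.1.trans hk
      have b3 := sum_le halg hm s1' hirr1' (γ s1') (fun q hq => hγ s1' hirr1' q hq) lam1' b1 hc2'.1
      have b4 : ((m : ℝ) + 1) * ∑ i, runL (γ s1') s1' lam1' i ≤ ∑ j, lam1' j := by
        have := Finset.sum_le_sum (s := Finset.univ) (fun j _ => b3 j)
        rw [Finset.sum_const, Finset.card_univ, Fintype.card_fin, nsmul_eq_mul] at this
        push_cast at this
        exact this
      have b5 := ((halg m hm s1' hirr1' (γ s1')).2.1 lam1' b1 hc2'.1).1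
      have b6 : 0 ≤ ∑ i, runL (γ s1') s1' lam1' i := Finset.sum_nonneg fun i _ => (b5 i).le
      have b7 : (1 : ℝ) ≤ m := by exact_mod_cast hm
      rw [pow_succ]
      nlinarith
  refine ⟨(2 ^ N * R)⁻¹, by positivity, 2 ^ N * R, fun δ hδ => ?_⟩
  obtain ⟨k, hk⟩ := exists_pow_lt_of_lt_one hδ (by norm_num : (1 / 2 : ℝ) < 1)
  obtain ⟨p, hc, hb, hsm⟩ := hsmall k
  set s1 := run p s0 with hs1
  set lam1 := runL p s0 lam with hlam1
  set w1 := runW p s0 (fun i => [i]) with hw1
  set g1 := γ s1 with hg1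
  set s2 := run g1 s1 with hs2
  set lam2 := runL g1 s1 lam1 with hlam2
  set w2 := runW g1 s1 w1 with hw2
  set g2 := γ s2 with hg2
  have hc1 := (Cyl_append _ _ _ _).1 hc
  have hc2 := (Cyl_append _ _ _ _).1 hc1.2
  have hirr1 : IrrS s1 := irr_run hirr hm p s0 hirr0
  have hirr2 : IrrS s2 := irr_run hirr hm g1 s1 hirr1
  have a1 := (halg m hm s0 hirr0 p).2.1 lam hlam hc1.1
  have a2 := (halg m hm s1 hirr1 g1).2.1 lam1 a1.1 hc2.1
  have a3 := (halg m hm s2 hirr2 g2).2.1 lam2 a2.1 hc2.2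
  have hGeo1 : Geo (iet lam σ) (piece lam) (fun j => left' lam σ j - left lam j) s1 lam1 w1 :=
    geo_run hirr hgT hgF hm hS.trans p s0 lam _ hirr0 hG0 hc1.1
  have hGeo2 : Geo (iet lam σ) (piece lam) (fun j => left' lam σ j - left lam j) s2 lam2 w2 :=
    geo_run hirr hgT hgF hm hS.trans g1 s1 lam1 w1 hirr1 hGeo1 hc2.1
  -- heights
  have hlen1 : ∀ i, ((w1 i).length : ℝ) = runQ p s0 (fun _ => 1) i := by
    intro i
    have := (halg m hm s0 hirr0 p).2.2.2.2 (fun i => [i]) i
    simpa using this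
  have hlen2 : ∀ i, ((w2 i).length : ℝ) = runQ g1 s1 (fun j => ((w1 j).length : ℝ)) i := fun i =>
    (halg m hm s1 hirr1 g1).2.2.2.2 w1 i
  have hq1pos : ∀ i, 0 < ((w1 i).length : ℝ) := by
    intro i
    rw [hlen1]
    exact runQ_pos (fun _ => one_pos) p i
  have hsum1 : ∑ i, ((w1 i).length : ℝ) * lam1 i = 1 := by
    rw [Finset.sum_congr rfl fun i _ => by rw [hlen1 i]]
    rw [(halg m hm s0 hirr0 p).1 (fun _ => 1) lam]
    simpa using hsum
  -- the minimal height
  obtain ⟨i₀, _, hi₀⟩ := Finset.exists_min_image Finset.univ (fun i => (w1 i).length)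
    ⟨(0 : Fin (m + 1)), Finset.mem_univ _⟩
  set L := (w1 i₀).length with hL
  have hL1 : ∀ i, L ≤ (w1 i).length := fun i => hi₀ i (Finset.mem_univ _)
  have hbal : ∀ i, ((w1 i).length : ℝ) ≤ R * L := by
    intro i
    have := hb i i₀
    rw [← hlen1, ← hlen1] at this
    exact this
  have hq2 := (halg m hm s1 hirr1 g1).2.2.1 (fun j => ((w1 j).length : ℝ)) (R * L) hq1pos hbal
  have hL2 : ∀ i, L ≤ (w2 i).length := by
    intro i
    have h1 : ((w1 i).length : ℝ) ≤ (w2 i).length := by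
      rw [hlen2]; exact hq2.1 i
    have h2 : (w1 i).length ≤ (w2 i).length := by exact_mod_cast h1
    exact (hL1 i).trans h2
  have hup2 : ∀ i, ((w2 i).length : ℝ) ≤ 2 ^ N * (R * L) := by
    intro i
    rw [hlen2]
    refine (hq2.2 i).trans (mul_le_mul_of_nonneg_right ?_ (by positivity))
    exact pow_le_pow_right₀ (by norm_num) (hNle s1)
  have hb0 : 0 ≤ ∑ i, lam2 i := Finset.sum_nonneg fun i _ => (a2.1 i).le
  -- the sum of the lengths
  have hs12 : ∑ i, lam1 i ≤ 2 ^ N * ∑ i, lam2 i := by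
    refine a2.2.2.trans (mul_le_mul_of_nonneg_right ?_ hb0)
    exact pow_le_pow_right₀ (by norm_num) (hNle s1)
  have hone : (1 : ℝ) ≤ R * L * ∑ i, lam1 i := by
    rw [← hsum1, Finset.mul_sum]
    exact Finset.sum_le_sum fun i _ => mul_le_mul_of_nonneg_right (hbal i) (a1.1 i).le
  have hLone : (L : ℝ) * ∑ i, lam1 i ≤ 1 := by
    rw [← hsum1, Finset.mul_sum]
    refine Finset.sum_le_sum fun i _ => mul_le_mul_of_nonneg_right ?_ (a1.1 i).le
    exact_mod_cast hL1 i
  have hL0 : (0 : ℝ) ≤ L := Nat.cast_nonneg _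
  have hLone2 : (L : ℝ) * ∑ i, lam2 i ≤ 1 :=
    (mul_le_mul_of_nonneg_left a2.2.1 hL0).trans hLone
  have hle1 : ∀ i, ∑ j, lam2 j ≤ lam1 i := fun i =>
    sum_le halg hm s1 hirr1 g1 (fun q hq => hγ s1 hirr1 q hq) lam1 a1.1 hc2.1 i
  have hle2 : ∀ i, ∑ j, runL g2 s2 lam2 j ≤ lam2 i := fun i =>
    sum_le halg hm s2 hirr2 g2 (fun q hq => hγ s2 hirr2 q hq) lam2 a2.1 hc2.2 i
  have hs23 : ∑ i, lam2 i ≤ 2 ^ N * ∑ i, runL g2 s2 lam2 i := by
    refine a3.2.2.trans (mul_le_mul_of_nonneg_right ?_ (Finset.sum_nonneg fun i _ => (a3.1 i).le))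
    exact pow_le_pow_right₀ (by norm_num) (hNle s2)
  have hniel : Nielsen w2 :=
    (halg m hm s1 hirr1 g1).2.2.2.1 w1 ((halg m hm s0 hirr0 p).2.2.2.1 _ Nielsen.base)
  obtain ⟨pp, hpp⟩ := hlg m (iet lam σ) (piece lam) (fun j => left' lam σ j - left lam j) hS s1 s2
    lam1 lam2 w1 w2 hGeo1 hGeo2 hniel L (2 ^ N * R)⁻¹ (2 ^ N * R) (by positivity) hL1 hL2 hsum1
    hle1 (by
      intro i
      rw [inv_mul_le_iff₀ (by positivity)]
      have h1 := hle2 i
      have h2 : 2 ^ N * ∑ i, runL g2 s2 lam2 i ≤ 2 ^ N * lam2 i :=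
        mul_le_mul_of_nonneg_left h1 h2N.le
      have h3 : (2 : ℝ) ^ N * lam2 i ≤ 2 ^ N * R * lam2 i := by
        have := a2.1 i
        have h4 : 0 < 2 ^ N * lam2 i := by positivity
        nlinarith
      linarith) (by
      rw [inv_le_iff_one_le_mul₀ (by positivity)]
      calc (1 : ℝ) ≤ R * L * ∑ i, lam1 i := hone
        _ ≤ R * L * (2 ^ N * ∑ i, lam2 i) := mul_le_mul_of_nonneg_left hs12 (by positivity)
        _ = L * ∑ j, lam2 j * (2 ^ N * R) := by rw [← Finset.sum_mul]; ring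
        _ = L * (∑ j, lam2 j) * (2 ^ N * R) := by rw [← Finset.sum_mul]; ring) (by
      intro i
      calc ((w2 i).length : ℝ) * ∑ j, lam2 j ≤ 2 ^ N * (R * L) * ∑ j, lam2 j :=
            mul_le_mul_of_nonneg_right (hup2 i) hb0
        _ = 2 ^ N * R * (L * ∑ j, lam2 j) := by ring
        _ ≤ 2 ^ N * R * 1 := mul_le_mul_of_nonneg_left hLone2 (by positivity)
        _ = 2 ^ N * R := mul_one _)
  exact ⟨_, _, _, _, pp, hsm.trans_lt hk, hpp⟩

end Pool.Agent.H553.IE
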